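import Pool.Agent.Lib.MP_e6b4b8_nt.Sieve

/-!
The case `k = 1`, in quantitative form: at least `c * sqrt X` of the `n ≤ X` have
`μ(n^2+1) = 1`.
-/

set_option autoImplicit false

open Finset Filter

namespace Pool.Agent.Retired.MP_e6b4b8_nt.CaseOne

open Pool.Agent.Lib.MP_e6b4b8_nt

theorem result :
    ∃ c : ℝ, 0 < c ∧ ∀ᶠ X : ℕ in atTop, c * Real.sqrt X ≤
      (((range (X + 1)).filter fun n => ArithmeticFunction.moebius (n ^ 2 + 1) = 1).card : ℝ) := by
  classical
  refine ⟨1 / 400, by norm_num, ?_⟩
  have ht : Tendsto (fun X : ℕ => Nat.sqrt X / 11) atTop atTop := by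
    refine tendsto_atTop.2 fun b => ?_
    filter_upwards [eventually_ge_atTop ((11 * b) * (11 * b))] with X hX
    have := Nat.le_sqrt.2 hX
    omega
  filter_upwards [ht.eventually eventually_card_good, ht.eventually (eventually_ge_atTop 2)]
    with X h1 h2
  set x := Nat.sqrt X / 11 with hx
  set A := (range (X + 1)).filter fun n => ArithmeticFunction.moebius (n ^ 2 + 1) = 1 with hA
  have hs : Nat.sqrt X * Nat.sqrt X ≤ X := Nat.sqrt_le X
  have h11 : 11 * x ≤ Nat.sqrt X := by omega
  have hxX : (11 * x) * (11 * x) ≤ X := (Nat.mul_le_mul h11 h11).trans hs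
  have hcard : ∀ g : ℕ → ℕ, Function.Injective g → (∀ t < x, g t ≤ X) →
      ((range x).filter fun t => ArithmeticFunction.moebius (g t ^ 2 + 1) = 1).card ≤ A.card := by
    intro g hg hle
    refine card_le_card_of_injOn g (fun t ht => ?_) hg.injOn
    simp only [coe_filter, mem_range, Set.mem_ofPred_eq, hA] at ht ⊢
    exact ⟨Nat.lt_succ_of_le (hle t ht.1), ht.2⟩
  have a1 := hcard (fun t => 10 * t) (fun a b h => by simp only at h; omega)
    (fun t ht => by nlinarith)
  have a2 := hcard (fun t => 10 * t + 1) (fun a b h => by simp only at h; omega)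
    (fun t ht => by nlinarith)
  have a3 := hcard (fun t => (10 * t) ^ 2 + 10 * t + 1)
    (StrictMono.injective fun a b h => by nlinarith) (fun t ht => by nlinarith)
  have hsub : (range x).filter GoodT ⊆
      (((range x).filter fun t => ArithmeticFunction.moebius ((10 * t) ^ 2 + 1) = 1) ∪
      ((range x).filter fun t => ArithmeticFunction.moebius ((10 * t + 1) ^ 2 + 1) = 1)) ∪
      ((range x).filter fun t =>
        ArithmeticFunction.moebius (((10 * t) ^ 2 + 10 * t + 1) ^ 2 + 1) = 1) := by
    intro t ht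
    rw [mem_filter] at ht
    simp only [mem_union, mem_filter]
    rcases moebius_of_good ht.2 with h | h | h
    · exact Or.inl (Or.inl ⟨ht.1, h⟩)
    · exact Or.inl (Or.inr ⟨ht.1, h⟩)
    · exact Or.inr ⟨ht.1, h⟩
  have a4 := (card_le_card hsub).trans ((card_union_le _ _).trans
    (Nat.add_le_add_right (card_union_le _ _) _))
  have a5 : ((range x).filter GoodT).card ≤ 3 * A.card := by omega
  have a6 : (((range x).filter GoodT).card : ℝ) ≤ 3 * A.card := by exact_mod_cast a5
  have a7 : Real.sqrt X ≤ 22 * x := by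
    have b1 : X < (Nat.sqrt X + 1) * (Nat.sqrt X + 1) := Nat.lt_succ_sqrt X
    have b2 : Nat.sqrt X + 1 ≤ 22 * x := by omega
    have b3 : X ≤ (22 * x) * (22 * x) := b1.le.trans (Nat.mul_le_mul b2 b2)
    rw [Real.sqrt_le_left (by positivity)]
    have : (X : ℝ) ≤ ((22 * x) * (22 * x) : ℕ) := by exact_mod_cast b3
    push_cast at this
    nlinarith
  have hx0 : (0 : ℝ) ≤ x := by positivity
  linarith

end Pool.Agent.Retired.MP_e6b4b8_nt.CaseOne
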